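import Pool.Agent.Helper99.DF.St

/-!
# Project DF, module A3: concavity of the rates
-/

set_option autoImplicit false

namespace Pool.Agent.Helper72.DF

open Pool.Agent.Helper99.DF

/-- Concavity of the rates. -/
theorem hA3 : StA3 := by
  intro S b al G hP hG h k hk
  unfold act at hk
  rw [Finset.mem_filter] at hk
  obtain ⟨hkS, hk1, hk2⟩ := hk
  by_contra hneg
  have hδ0 : 0 < - cc al k := by linarith [not_le.1 hneg]
  have key : ∀ t : ℕ, Real.exp (2 ^ t * (- cc al k)) ≤ G ^ 2 := by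
    intro t
    have h0 := (hP.2 (t + 1) k).1 hkS
    rw [Function.iterate_succ_apply'] at h0
    have hT : T (T^[t] b) k = ((T^[t] b) k) ^ 2 - (T^[t] b) (k - 1) * (T^[t] b) (k + 1) := rfl
    rw [hT] at h0
    have e1 := (h t (k - 1) hk1).1
    have e2 := (h t (k + 1) hk2).1
    have e3 := (h t k hkS).2
    have p0 := (hP.2 t k).1 hkS
    have p1 := (hP.2 t (k - 1)).1 hk1
    have hprod : Real.exp (2 ^ t * al (k - 1)) * Real.exp (2 ^ t * al (k + 1)) ≤
        (T^[t] b) (k - 1) * (T^[t] b) (k + 1) :=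
      mul_le_mul e1 e2 (Real.exp_pos _).le p1.le
    have hsq : ((T^[t] b) k) ^ 2 ≤ (G * Real.exp (2 ^ t * al k)) ^ 2 :=
      pow_le_pow_left₀ p0.le e3 2
    have hE : (0 : ℝ) < Real.exp (2 ^ t * al k) ^ 2 := by positivity
    have heq : Real.exp (2 ^ t * (- cc al k)) * Real.exp (2 ^ t * al k) ^ 2 =
        Real.exp (2 ^ t * al (k - 1)) * Real.exp (2 ^ t * al (k + 1)) := by
      rw [← Real.exp_nat_mul, ← Real.exp_add, ← Real.exp_add]
      congr 1
      unfold cc
      push_cast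
      ring
    refine le_of_mul_le_mul_right ?_ hE
    rw [heq]
    rw [mul_pow] at hsq
    linarith
  obtain ⟨t, ht⟩ := pow_unbounded_of_one_lt (G ^ 2 / (- cc al k)) (one_lt_two : (1 : ℝ) < 2)
  rw [div_lt_iff₀ hδ0] at ht
  have h1 := key t
  have h2 := Real.add_one_le_exp (2 ^ t * (- cc al k))
  linarith

end Pool.Agent.Helper72.DF
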